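import Pool.Agent.W78.GA.Basic

/-!
Project GA (helper78), task GA-20: VE.
-/

set_option autoImplicit false

namespace Pool.Agent.W29.GA

open Finset Filter
open Pool.Agent.H376R2.MR Pool.Agent.W78.GA

variable {t c : ℤ}

open scoped Classical in
/-- the vectors with a given determinant with `v` -/
noncomputable def nbr (t c : ℤ) (k : ℤ) (X : ℝ) (v : Qd t c) : Finset (Qd t c) :=
  (pball t c X).filter (fun u => dt v u = k)

theorem tc_sub (u u' : Qd t c) : tc (u - u') = tc u - tc u' := by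
  apply Complex.ext
  · rw [Complex.sub_re, tc_re, tc_re, tc_re]
    simp only [QuadraticAlgebra.re_sub, QuadraticAlgebra.im_sub]
    push_cast
    ring
  · rw [Complex.sub_im, tc_im, tc_im, tc_im]
    simp only [QuadraticAlgebra.im_sub]
    push_cast
    ring

theorem nm_sub_le (hD : t ^ 2 < 4 * c) (u u' : Qd t c) :
    (nm (u - u') : ℝ) ≤ 2 * nm u + 2 * nm u' := by
  rw [nm_eq_norm_sq hD, nm_eq_norm_sq hD, nm_eq_norm_sq hD, tc_sub]
  have h1 := norm_sub_le (tc u) (tc u')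
  have h2 := norm_nonneg (tc u - tc u')
  nlinarith [sq_nonneg (‖tc u‖ - ‖tc u'‖)]

theorem nbr_card (hD : t ^ 2 < 4 * c) (k : ℤ) {X : ℝ} {v : Qd t c} (hv : prim v)
    (hvX : (nm v : ℝ) ≤ X) : ((nbr t c k X v).card : ℝ) ≤ 3 * Real.sqrt (X / nm v) := by
  classical
  have hv0 : (0 : ℝ) < nm v := nm_posR hD (prim_ne_zero hv)
  have hX1 : 1 ≤ X / nm v := by rw [le_div_iff₀ hv0]; linarith
  have hs1 : 1 ≤ Real.sqrt (X / nm v) := by
    rw [Real.one_le_sqrt]; exact hX1
  rcases (nbr t c k X v).eq_empty_or_nonempty with h | hne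
  · rw [h, Finset.card_empty, Nat.cast_zero]; linarith
  -- Bezout
  have hcop : IsCoprime v.re v.im := Int.isCoprime_iff_gcd_eq_one.2 hv
  obtain ⟨a, b, hab⟩ := hcop
  set s : Qd t c → ℤ := fun u => a * u.re + b * u.im with hs
  have hkey : ∀ u ∈ nbr t c k X v, ∀ u' ∈ nbr t c k X v,
      u - u' = ((s u - s u' : ℤ) : Qd t c) * v := by
    intro u hu u' hu'
    unfold nbr at hu hu'
    rw [mem_filter] at hu hu'
    have h1 : v.re * u.im - v.im * u.re = k := hu.2
    have h2 : v.re * u'.im - v.im * u'.re = k := hu'.2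
    have h3 : v.re * (u.im - u'.im) = v.im * (u.re - u'.re) := by linear_combination h1 - h2
    apply QuadraticAlgebra.ext
    · simp only [QuadraticAlgebra.re_sub, QuadraticAlgebra.re_mul, QuadraticAlgebra.re_intCast,
        QuadraticAlgebra.im_intCast, Int.cast_id, hs]
      linear_combination (-(u.re - u'.re)) * hab - b * h3
    · simp only [QuadraticAlgebra.im_sub, QuadraticAlgebra.im_mul, QuadraticAlgebra.re_intCast,
        QuadraticAlgebra.im_intCast, Int.cast_id, hs]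
      linear_combination (-(u.im - u'.im)) * hab + a * h3
  have hinj : ∀ u ∈ nbr t c k X v, ∀ u' ∈ nbr t c k X v, s u = s u' → u = u' := by
    intro u hu u' hu' h
    have := hkey u hu u' hu'
    rw [h, sub_self, Int.cast_zero, zero_mul] at this
    exact sub_eq_zero.1 this
  obtain ⟨u₀, hu₀, hmin⟩ := Finset.exists_min_image (nbr t c k X v) s hne
  obtain ⟨u₁, hu₁, hmax⟩ := Finset.exists_max_image (nbr t c k X v) s hne
  have hle : s u₀ ≤ s u₁ := hmin u₁ hu₁
  have hcard : (nbr t c k X v).card ≤ (s u₁ + 1 - s u₀).toNat := by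
    rw [← Int.card_Icc, ← Finset.card_image_of_injOn (f := s) (s := nbr t c k X v)
      (fun u hu u' hu' h => hinj u hu u' hu' h)]
    apply Finset.card_le_card
    intro y hy
    rw [mem_image] at hy
    obtain ⟨u, hu, rfl⟩ := hy
    rw [mem_Icc]
    exact ⟨hmin u hu, hmax u hu⟩
  have hcard' : ((nbr t c k X v).card : ℝ) ≤ ((s u₁ - s u₀ : ℤ) : ℝ) + 1 := by
    have h1 : ((nbr t c k X v).card : ℤ) ≤ s u₁ + 1 - s u₀ := by
      have : ((s u₁ + 1 - s u₀).toNat : ℤ) = s u₁ + 1 - s u₀ := Int.toNat_of_nonneg (by omega)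
      rw [← this]
      exact_mod_cast hcard
    have h2 : (((nbr t c k X v).card : ℤ) : ℝ) ≤ ((s u₁ + 1 - s u₀ : ℤ) : ℝ) := by
      exact_mod_cast h1
    push_cast at h2 ⊢
    linarith
  have hd : ((s u₁ - s u₀ : ℤ) : ℝ) ≤ 2 * Real.sqrt (X / nm v) := by
    have h1 := hkey u₁ hu₁ u₀ hu₀
    have h2 := nm_sub_le hD u₁ u₀
    have e1 : (nm u₁ : ℝ) ≤ X := ((mem_pball hD).1 (mem_filter.1 hu₁).1).2
    have e0 : (nm u₀ : ℝ) ≤ X := ((mem_pball hD).1 (mem_filter.1 hu₀).1).2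
    rw [h1, nm_mul, nm_intCast] at h2
    push_cast at h2
    have h3 : (((s u₁ - s u₀).natAbs : ℕ) : ℝ) ^ 2 = ((s u₁ - s u₀ : ℤ) : ℝ) ^ 2 := by
      rw [Nat.cast_natAbs, Int.cast_abs, sq_abs]
    rw [h3] at h2
    have h4 : ((s u₁ - s u₀ : ℤ) : ℝ) ^ 2 ≤ (2 * Real.sqrt (X / nm v)) ^ 2 := by
      rw [mul_pow, Real.sq_sqrt (by positivity), ← mul_div_assoc, le_div_iff₀ hv0]
      push_cast at h2 ⊢
      linarith
    exact (abs_le_of_sq_le_sq' h4 (by positivity)).2
  linarith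

/-- the largest coordinate -/
def mx (z : Qd t c) : ℕ := max z.re.natAbs z.im.natAbs

theorem c_pos (hD : t ^ 2 < 4 * c) : 1 ≤ c := by nlinarith [sq_nonneg t]

theorem mx_sq_le (hD : t ^ 2 < 4 * c) (z : Qd t c) : ((mx z : ℕ) : ℤ) ^ 2 ≤ 4 * c * nm z := by
  have h1 := nm_cast hD z
  have hc := c_pos hD
  rw [h1]
  have hD1 : 1 ≤ 4 * c - t ^ 2 := by linarith
  have e2 : 4 * c * (z.re ^ 2 + t * z.re * z.im + c * z.im ^ 2) =
        (2 * c * z.im + t * z.re) ^ 2 + (4 * c - t ^ 2) * z.re ^ 2 := by ring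
  have e1 := four_nm z
  have h0 := nm_nonneg hD z
  unfold mx
  rcases max_choice z.re.natAbs z.im.natAbs with h | h
  · rw [h, Int.natAbs_sq, e2]
    nlinarith [sq_nonneg (2 * c * z.im + t * z.re), mul_le_mul_of_nonneg_right hD1
      (sq_nonneg z.re)]
  · rw [h, Int.natAbs_sq]
    have h5 : z.im ^ 2 ≤ 4 * (z.re ^ 2 + t * z.re * z.im + c * z.im ^ 2) := by
      rw [e1]
      nlinarith [sq_nonneg (2 * z.re + t * z.im), mul_le_mul_of_nonneg_right hD1
        (sq_nonneg z.im)]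
    nlinarith [mul_le_mul_of_nonneg_right hc h0]

theorem mx_pos {z : Qd t c} (hz : z ≠ 0) : 1 ≤ mx z := by
  by_contra h
  have h0 : mx z = 0 := by omega
  unfold mx at h0
  have h1 : z.re.natAbs = 0 := by
    have := le_max_left z.re.natAbs z.im.natAbs; omega
  have h2 : z.im.natAbs = 0 := by
    have := le_max_right z.re.natAbs z.im.natAbs; omega
  exact hz (QuadraticAlgebra.ext (Int.natAbs_eq_zero.1 h1) (Int.natAbs_eq_zero.1 h2))

theorem fiber_card (s : Finset (Qd t c)) {M : ℕ} (hM : 1 ≤ M) :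
    (s.filter (fun z => mx z = M)).card ≤ 12 * M := by
  classical
  have hsub : s.filter (fun z => mx z = M) ⊆
      ((Icc (-(M : ℤ)) M).image (fun y => (⟨M, y⟩ : Qd t c)) ∪
        (Icc (-(M : ℤ)) M).image (fun y => (⟨-M, y⟩ : Qd t c))) ∪
      ((Icc (-(M : ℤ)) M).image (fun x => (⟨x, M⟩ : Qd t c)) ∪
        (Icc (-(M : ℤ)) M).image (fun x => (⟨x, -M⟩ : Qd t c))) := by
    intro z hz
    rw [mem_filter] at hz
    obtain ⟨-, hz⟩ := hz
    unfold mx at hz
    have h1 : z.re.natAbs ≤ M := by rw [← hz]; exact le_max_left _ _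
    have h2 : z.im.natAbs ≤ M := by rw [← hz]; exact le_max_right _ _
    simp only [mem_union, mem_image, mem_Icc]
    obtain ⟨x, y⟩ := z
    simp only at h1 h2 hz
    rcases max_choice x.natAbs y.natAbs with h | h
    · rw [h] at hz
      left
      rcases Int.natAbs_eq x with h3 | h3
      · left; exact ⟨y, by omega, by rw [hz] at h3; rw [h3]⟩
      · right; exact ⟨y, by omega, by rw [hz] at h3; rw [h3]⟩
    · rw [h] at hz
      right
      rcases Int.natAbs_eq y with h3 | h3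
      · left; exact ⟨x, by omega, by rw [hz] at h3; rw [h3]⟩
      · right; exact ⟨x, by omega, by rw [hz] at h3; rw [h3]⟩
  have hI : (Icc (-(M : ℤ)) M).card = 2 * M + 1 := by
    rw [Int.card_Icc]
    omega
  have hc : ∀ f : ℤ → Qd t c, ((Icc (-(M : ℤ)) M).image f).card ≤ 2 * M + 1 := fun f =>
    Finset.card_image_le.trans (le_of_eq hI)
  refine (Finset.card_le_card hsub).trans ?_
  refine (Finset.card_union_le _ _).trans ?_
  refine (add_le_add (Finset.card_union_le _ _) (Finset.card_union_le _ _)).trans ?_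
  have h1 := hc (fun y => (⟨M, y⟩ : Qd t c))
  have h2 := hc (fun y => (⟨-M, y⟩ : Qd t c))
  have h3 := hc (fun x => (⟨x, M⟩ : Qd t c))
  have h4 := hc (fun x => (⟨x, -M⟩ : Qd t c))
  omega

theorem sum_inv_sqrt (hD : t ^ 2 < 4 * c) (R : ℝ) (s : Finset (Qd t c))
    (hs : ∀ z ∈ s, z ≠ 0 ∧ (nm z : ℝ) ≤ R) :
    ∑ z ∈ s, 1 / Real.sqrt (nm z) ≤ 48 * c * Real.sqrt R := by
  classical
  have hcR : (1 : ℝ) ≤ c := by exact_mod_cast c_pos hD
  set q : ℝ := 2 * Real.sqrt c with hq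
  have hq0 : 0 < q := by
    have : 0 < Real.sqrt c := Real.sqrt_pos.2 (by linarith)
    positivity
  have hq2 : q ^ 2 = 4 * c := by
    rw [hq, mul_pow, Real.sq_sqrt (by linarith)]; norm_num
  have hmx : ∀ z : Qd t c, ((mx z : ℕ) : ℝ) ≤ q * Real.sqrt (nm z) := by
    intro z
    have h1 := mx_sq_le hD z
    have h2 : ((mx z : ℕ) : ℝ) ^ 2 ≤ 4 * c * nm z := by exact_mod_cast h1
    have h3 : (q * Real.sqrt (nm z)) ^ 2 = 4 * c * nm z := by
      rw [mul_pow, Real.sq_sqrt (Nat.cast_nonneg _), hq2]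
    rw [← h3] at h2
    exact (abs_le_of_sq_le_sq' h2 (by positivity)).2
  have hmaps : ∀ z ∈ s, mx z ∈ Icc 1 ⌊q * Real.sqrt R⌋₊ := by
    intro z hz
    obtain ⟨h1, h2⟩ := hs z hz
    rw [mem_Icc]
    refine ⟨mx_pos h1, Nat.le_floor ?_⟩
    exact (hmx z).trans (mul_le_mul_of_nonneg_left (Real.sqrt_le_sqrt h2) hq0.le)
  rw [← Finset.sum_fiberwise_of_maps_to hmaps]
  have h1 : ∀ M ∈ Icc 1 ⌊q * Real.sqrt R⌋₊,
      ∑ z ∈ s.filter (fun z => mx z = M), 1 / Real.sqrt (nm z) ≤ 12 * q := by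
    intro M hM
    rw [mem_Icc] at hM
    have hM0 : (0 : ℝ) < M := by exact_mod_cast hM.1
    have h2 : ∀ z ∈ s.filter (fun z => mx z = M), 1 / Real.sqrt (nm z) ≤ q / (M : ℝ) := by
      intro z hz
      rw [mem_filter] at hz
      have h3 := hmx z
      rw [hz.2] at h3
      have h4 : 0 < Real.sqrt (nm z) := by
        rcases (Real.sqrt_nonneg (nm z : ℝ)).lt_or_eq with h | h
        · exact h
        · rw [← h] at h3; simp at h3; linarith
      rw [div_le_div_iff₀ h4 hM0]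
      linarith
    refine (Finset.sum_le_card_nsmul _ _ _ h2).trans ?_
    have h5 : (((s.filter (fun z => mx z = M)).card : ℕ) : ℝ) ≤ 12 * M := by
      exact_mod_cast fiber_card s hM.1
    rw [nsmul_eq_mul]
    calc (((s.filter (fun z => mx z = M)).card : ℕ) : ℝ) * (q / M) ≤ 12 * M * (q / M) :=
          mul_le_mul_of_nonneg_right h5 (by positivity)
      _ = 12 * q := by field_simp
  refine (Finset.sum_le_card_nsmul _ _ _ h1).trans ?_
  rw [nsmul_eq_mul, Nat.card_Icc]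
  have h3 : ((⌊q * Real.sqrt R⌋₊ : ℕ) : ℝ) ≤ q * Real.sqrt R :=
    Nat.floor_le (mul_nonneg hq0.le (Real.sqrt_nonneg _))
  have h4 : ((⌊q * Real.sqrt R⌋₊ + 1 - 1 : ℕ) : ℝ) = (⌊q * Real.sqrt R⌋₊ : ℝ) := by simp
  rw [h4]
  calc (⌊q * Real.sqrt R⌋₊ : ℝ) * (12 * q) ≤ q * Real.sqrt R * (12 * q) :=
        mul_le_mul_of_nonneg_right h3 (by positivity)
    _ = 12 * q ^ 2 * Real.sqrt R := by ring
    _ = 48 * c * Real.sqrt R := by rw [hq2]; ring

theorem nbr_sum (hD : t ^ 2 < 4 * c) (k : ℤ) {κ X : ℝ} (V : Finset (Qd t c)) (hκ : 0 < κ)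
    (hX : 1 ≤ X) :
    ∑ v ∈ V ∩ pball t c X, ((nbr t c k X v).card : ℝ) ≤
      144 * c * (κ * X + ((V ∩ pball t c X).card : ℝ) / κ) := by
  classical
  have hcR : (1 : ℝ) ≤ c := by exact_mod_cast c_pos hD
  have hX0 : 0 < X := by linarith
  have h1 : ∑ v ∈ V ∩ pball t c X, ((nbr t c k X v).card : ℝ) ≤
      ∑ v ∈ V ∩ pball t c X, 3 * Real.sqrt (X / nm v) := by
    refine Finset.sum_le_sum fun v hv => ?_
    obtain ⟨h2, h3⟩ := (mem_pball hD).1 (mem_inter.1 hv).2
    exact nbr_card hD k h2 h3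
  refine h1.trans ?_
  rw [← Finset.sum_filter_add_sum_filter_not (V ∩ pball t c X)
    (fun v => (nm v : ℝ) ≤ κ ^ 2 * X)]
  have h2 : ∑ v ∈ (V ∩ pball t c X).filter (fun v => (nm v : ℝ) ≤ κ ^ 2 * X),
      3 * Real.sqrt (X / nm v) ≤ 144 * c * (κ * X) := by
    have h3 := sum_inv_sqrt hD (κ ^ 2 * X)
      ((V ∩ pball t c X).filter (fun v => (nm v : ℝ) ≤ κ ^ 2 * X)) (by
        intro z hz
        rw [mem_filter] at hz
        exact ⟨prim_ne_zero ((mem_pball hD).1 (mem_inter.1 hz.1).2).1, hz.2⟩)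
    have h4 : ∑ v ∈ (V ∩ pball t c X).filter (fun v => (nm v : ℝ) ≤ κ ^ 2 * X),
        3 * Real.sqrt (X / nm v) = 3 * Real.sqrt X *
          ∑ v ∈ (V ∩ pball t c X).filter (fun v => (nm v : ℝ) ≤ κ ^ 2 * X),
            1 / Real.sqrt (nm v) := by
      rw [Finset.mul_sum]
      refine Finset.sum_congr rfl fun v _ => ?_
      rw [Real.sqrt_div hX0.le]
      ring
    rw [h4]
    have h5 : Real.sqrt (κ ^ 2 * X) = κ * Real.sqrt X := by
      rw [Real.sqrt_mul (by positivity), Real.sqrt_sq hκ.le]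
    rw [h5] at h3
    have h6 : Real.sqrt X * Real.sqrt X = X := Real.mul_self_sqrt hX0.le
    calc 3 * Real.sqrt X * _ ≤ 3 * Real.sqrt X * (48 * c * (κ * Real.sqrt X)) :=
          mul_le_mul_of_nonneg_left h3 (by positivity)
      _ = 144 * c * (κ * (Real.sqrt X * Real.sqrt X)) := by ring
      _ = 144 * c * (κ * X) := by rw [h6]
  have h3 : ∑ v ∈ (V ∩ pball t c X).filter (fun v => ¬ (nm v : ℝ) ≤ κ ^ 2 * X),
      3 * Real.sqrt (X / nm v) ≤ 3 * (((V ∩ pball t c X).card : ℝ) / κ) := by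
    have h4 : ∀ v ∈ (V ∩ pball t c X).filter (fun v => ¬ (nm v : ℝ) ≤ κ ^ 2 * X),
        3 * Real.sqrt (X / nm v) ≤ 3 / κ := by
      intro v hv
      rw [mem_filter] at hv
      have h5 : κ ^ 2 * X < nm v := not_le.1 hv.2
      have h6 : (0 : ℝ) < nm v := lt_trans (by positivity) h5
      have h7 : Real.sqrt (X / nm v) ≤ 1 / κ := by
        rw [Real.sqrt_le_left (by positivity), div_pow, one_pow, div_le_div_iff₀ h6 (by positivity)]
        linarith
      calc 3 * Real.sqrt (X / nm v) ≤ 3 * (1 / κ) := by linarith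
        _ = 3 / κ := by ring
    refine (Finset.sum_le_card_nsmul _ _ _ h4).trans ?_
    rw [nsmul_eq_mul]
    have h5 : ((((V ∩ pball t c X).filter (fun v => ¬ (nm v : ℝ) ≤ κ ^ 2 * X)).card : ℕ) : ℝ) ≤
        ((V ∩ pball t c X).card : ℝ) := by exact_mod_cast Finset.card_filter_le _ _
    calc _ ≤ ((V ∩ pball t c X).card : ℝ) * (3 / κ) :=
          mul_le_mul_of_nonneg_right h5 (by positivity)
      _ = 3 * (((V ∩ pball t c X).card : ℝ) / κ) := by ring
  have h4 : 0 ≤ ((V ∩ pball t c X).card : ℝ) / κ := by positivity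
  nlinarith

theorem ve (hD : t ^ 2 < 4 * c) : S_VE t c := by
  classical
  have hcR : (1 : ℝ) ≤ c := by exact_mod_cast c_pos hD
  refine ⟨288 * c, by linarith, fun κ X V hκ _ hX => ?_⟩
  have hsub : (dedge t c X).filter (fun e => e.1 ∈ V ∨ e.2 ∈ V) ⊆
      (dedge t c X).filter (fun e => e.1 ∈ V) ∪ (dedge t c X).filter (fun e => e.2 ∈ V) := by
    intro e he
    rw [mem_filter] at he
    rw [mem_union, mem_filter, mem_filter]
    rcases he.2 with h | h
    · left; exact ⟨he.1, h⟩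
    · right; exact ⟨he.1, h⟩
  have h1 : (((dedge t c X).filter (fun e => e.1 ∈ V)).card : ℝ) ≤
      144 * c * (κ * X + ((V ∩ pball t c X).card : ℝ) / κ) := by
    refine le_trans ?_ (nbr_sum hD 1 V hκ hX)
    have h2 : ∀ e ∈ (dedge t c X).filter (fun e => e.1 ∈ V), e.1 ∈ V ∩ pball t c X := by
      intro e he
      rw [mem_filter] at he
      unfold dedge at he
      rw [mem_filter, mem_product] at he
      exact mem_inter.2 ⟨he.2, he.1.1.1⟩
    rw [Finset.card_eq_sum_card_fiberwise h2]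
    push_cast
    refine Finset.sum_le_sum fun v _ => ?_
    norm_cast
    refine Finset.card_le_card_of_injOn (fun e => e.2) ?_ ?_
    · intro e he
      simp only [coe_filter, Set.mem_ofPred_eq, mem_filter, dedge, mem_product] at he
      simp only [nbr, coe_filter, Set.mem_ofPred_eq]
      obtain ⟨⟨⟨⟨-, h4⟩, h5⟩, -⟩, h6⟩ := he
      exact ⟨h4, by rw [← h6]; exact h5⟩
    · intro e he f hf hef
      simp only [coe_filter, Set.mem_ofPred_eq] at he hf
      exact Prod.ext (he.2.trans hf.2.symm) hef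
  have h2 : (((dedge t c X).filter (fun e => e.2 ∈ V)).card : ℝ) ≤
      144 * c * (κ * X + ((V ∩ pball t c X).card : ℝ) / κ) := by
    refine le_trans ?_ (nbr_sum hD (-1) V hκ hX)
    have h2 : ∀ e ∈ (dedge t c X).filter (fun e => e.2 ∈ V), e.2 ∈ V ∩ pball t c X := by
      intro e he
      rw [mem_filter] at he
      unfold dedge at he
      rw [mem_filter, mem_product] at he
      exact mem_inter.2 ⟨he.2, he.1.1.2⟩
    rw [Finset.card_eq_sum_card_fiberwise h2]
    push_cast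
    refine Finset.sum_le_sum fun v _ => ?_
    norm_cast
    refine Finset.card_le_card_of_injOn (fun e => e.1) ?_ ?_
    · intro e he
      simp only [coe_filter, Set.mem_ofPred_eq, mem_filter, dedge, mem_product] at he
      simp only [nbr, coe_filter, Set.mem_ofPred_eq]
      obtain ⟨⟨⟨⟨h4, -⟩, h5⟩, -⟩, h6⟩ := he
      refine ⟨h4, ?_⟩
      rw [← h6]
      unfold dt at h5 ⊢
      rw [show e.2.re * e.1.im - e.2.im * e.1.re = -(e.1.re * e.2.im - e.1.im * e.2.re) by ring,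
        h5]
      rfl
    · intro e he f hf hef
      simp only [coe_filter, Set.mem_ofPred_eq] at he hf
      exact Prod.ext hef (he.2.trans hf.2.symm)
  have h3 : (((dedge t c X).filter (fun e => e.1 ∈ V ∨ e.2 ∈ V)).card : ℝ) ≤
      (((dedge t c X).filter (fun e => e.1 ∈ V)).card : ℝ) +
        (((dedge t c X).filter (fun e => e.2 ∈ V)).card : ℝ) := by
    exact_mod_cast (Finset.card_le_card hsub).trans (Finset.card_union_le _ _)
  linarith

end Pool.Agent.W29.GA
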