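import Pool.Agent.W78.GA.Basic

/-!
Project GA (helper78), task GA-20: MULT.
-/

set_option autoImplicit false

namespace Pool.Agent.W29.GA

open Finset Filter
open Pool.Agent.H376R2.MR Pool.Agent.W78.GA

variable {t c : ℤ}

/-- at most six elements have norm `1` -/
def units6 (t c : ℤ) : Finset (Qd t c) :=
  {⟨1, 0⟩, ⟨-1, 0⟩, ⟨(1 - t) / 2, 1⟩, ⟨(-1 - t) / 2, 1⟩, ⟨(1 + t) / 2, -1⟩, ⟨(-1 + t) / 2, -1⟩}

theorem mem_units6 (hD : t ^ 2 < 4 * c) {u : Qd t c} (h : nm u = 1) : u ∈ units6 t c := by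
  have h1 := nm_cast hD u
  rw [h] at h1
  push_cast at h1
  have h4 := four_nm u
  rw [← h1] at h4
  have h3 : 3 ≤ 4 * c - t ^ 2 := by
    have := three_le_disc hD
    exact_mod_cast this
  obtain ⟨x, y⟩ := u
  simp only at h1 h4
  have hy : y = -1 ∨ y = 0 ∨ y = 1 := by
    have h5 : y ^ 2 ≤ 1 := by nlinarith [sq_nonneg (2 * x + t * y), sq_nonneg y]
    have : -1 ≤ y ∧ y ≤ 1 := by constructor <;> nlinarith
    omega
  unfold units6
  simp only [mem_insert, mem_singleton, QuadraticAlgebra.mk.injEq]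
  have hsq : ∀ w : ℤ, w ^ 2 ≤ 1 → w = -1 ∨ w = 0 ∨ w = 1 := by
    intro w hw
    have : -1 ≤ w ∧ w ≤ 1 := by constructor <;> nlinarith
    omega
  rcases hy with rfl | rfl | rfl
  · have h5 := hsq (2 * x + t * (-1)) (by nlinarith)
    omega
  · have : x ^ 2 = 1 := by nlinarith
    have h5 := hsq x (by linarith)
    rcases h5 with rfl | rfl | rfl
    · simp
    · norm_num at this
    · simp
  · have h5 := hsq (2 * x + t * 1) (by nlinarith)
    omega

theorem card_units6 (t c : ℤ) : (units6 t c).card ≤ 6 := Finset.card_le_six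

/-- the ideal generated by `star v`, `dt v u = 1` -/
theorem star_dvd_iff (hD : t ^ 2 < 4 * c) {v u : Qd t c} (h : dt v u = 1) (z : Qd t c) :
    star v ∣ z ↔ ((nm v : ℕ) : ℤ) ∣ z.re - ip v u * z.im := by
  have hw : star v * u = (⟨ip v u, 1⟩ : Qd t c) := by rw [star_mul_eq, h]
  have hz : z = ((z.re - ip v u * z.im : ℤ) : Qd t c) + (z.im : Qd t c) * (⟨ip v u, 1⟩ : Qd t c) := by
    apply QuadraticAlgebra.ext
    · simp only [QuadraticAlgebra.re_add, QuadraticAlgebra.re_mul, QuadraticAlgebra.re_intCast,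
        QuadraticAlgebra.im_intCast, Int.cast_id]
      ring
    · simp only [QuadraticAlgebra.im_add, QuadraticAlgebra.im_mul, QuadraticAlgebra.re_intCast,
        QuadraticAlgebra.im_intCast, Int.cast_id]
      ring
  constructor
  · intro hd
    have h1 : star v ∣ ((z.re - ip v u * z.im : ℤ) : Qd t c) := by
      have h2 : star v ∣ (z.im : Qd t c) * (⟨ip v u, 1⟩ : Qd t c) := by
        rw [← hw]
        exact (Dvd.intro _ rfl).mul_left _
      rw [hz] at hd
      exact (dvd_add_left h2).1 hd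
    obtain ⟨q, hq⟩ := h1
    set m : ℤ := z.re - ip v u * z.im with hm
    have h3 : (m : Qd t c) * v = ((nm v : ℕ) : Qd t c) * q := by
      rw [hq, ← star_mul_self' hD]
      ring
    have h4 : ((nm v : ℕ) : Qd t c) ∣ (m : Qd t c) * v := ⟨q, h3⟩
    rw [natCast_dvd] at h4
    simp only [QuadraticAlgebra.re_mul, QuadraticAlgebra.im_mul, QuadraticAlgebra.re_intCast,
      QuadraticAlgebra.im_intCast, Int.cast_id] at h4
    obtain ⟨h5, h6⟩ := h4
    have h7 : m = u.im * (m * v.re) - u.re * (m * v.im) := by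
      have : v.re * u.im - v.im * u.re = 1 := h
      linear_combination (-m) * this
    rw [h7]
    refine dvd_sub ?_ ?_
    · refine Dvd.dvd.mul_left ?_ _
      have e : m * v.re = m * v.re + -c * (0 : ℤ) * v.im := by ring
      rw [e]
      exact h5
    · refine Dvd.dvd.mul_left ?_ _
      have e : m * v.im = m * v.im + 0 * v.re + t * 0 * v.im := by ring
      rw [e]
      exact h6
  · rintro ⟨k, hk⟩
    rw [hz, hk]
    refine dvd_add ?_ ?_
    · rw [Int.cast_mul, Int.cast_natCast, ← star_mul_self' hD]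
      exact ⟨v * k, by ring⟩
    · rw [← hw]
      exact (Dvd.intro _ rfl).mul_left _

theorem mult (hD : t ^ 2 < 4 * c) : S_MULT t c := by
  classical
  intro n d S hS
  rcases S.eq_empty_or_nonempty with h | ⟨e₀, he₀⟩
  · rw [h]; simp
  have hne : ∀ e ∈ S, e.1 ≠ 0 := by
    intro e he h0
    have h1 := (hS e he).1
    unfold dt at h1
    rw [h0] at h1
    simp at h1
  have hdpos : 0 < d := by
    rw [← (hS e₀ he₀).2.2]
    exact nm_pos hD (hne e₀ he₀)
  have hmul : ∀ e ∈ S, star e.1 * e.2 = (⟨n, 1⟩ : Qd t c) := by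
    intro e he
    rw [star_mul_eq, (hS e he).1, (hS e he).2.1]
  have hcancel : ∀ {a b b' : Qd t c}, a ≠ 0 → a * b = a * b' → b = b' := by
    intro a b b' ha hab
    have h1 : nm (a * (b - b')) = 0 := by
      rw [mul_sub, hab, sub_self]
      exact nm_zero
    rw [nm_mul] at h1
    rcases Nat.mul_eq_zero.1 h1 with h2 | h2
    · exact absurd ((nm_eq_zero hD).1 h2) ha
    · exact sub_eq_zero.1 ((nm_eq_zero hD).1 h2)
  have hinj : ∀ e ∈ S, ∀ f ∈ S, e.1 = f.1 → e = f := by
    intro e he f hf hef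
    refine Prod.ext hef ?_
    have h1 := hmul e he
    rw [← hmul f hf, hef] at h1
    refine hcancel ?_ h1
    intro h0
    apply hne f hf
    have := congrArg star h0
    simpa using this
  have hsub : S.image (fun e => e.1) ⊆ (units6 t c).image (fun u => e₀.1 * star u) := by
    intro v hv
    rw [mem_image] at hv
    obtain ⟨e, he, rfl⟩ := hv
    have h1 : star e₀.1 ∣ star e.1 := by
      rw [star_dvd_iff hD (hS e₀ he₀).1, (hS e₀ he₀).2.1, (hS e₀ he₀).2.2]
      have h2 := (star_dvd_iff hD (hS e he).1 (star e.1)).1 dvd_rfl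
      rw [(hS e he).2.1, (hS e he).2.2] at h2
      exact h2
    obtain ⟨u, hu⟩ := h1
    have h3 : nm u = 1 := by
      have h4 := congrArg nm hu
      rw [nm_mul, nm_star, nm_star, (hS e he).2.2, (hS e₀ he₀).2.2] at h4
      have h5 : d * 1 = d * nm u := by rw [mul_one]; exact h4
      exact (Nat.eq_of_mul_eq_mul_left hdpos h5).symm
    rw [mem_image]
    refine ⟨u, mem_units6 hD h3, ?_⟩
    have h6 := congrArg star hu
    rw [star_star, star_mul', star_star] at h6
    exact h6.symm
  have h1 : (S.image (fun e => e.1)).card = S.card :=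
    Finset.card_image_of_injOn fun e he f hf hef => hinj e he f hf hef
  rw [← h1]
  exact (Finset.card_le_card hsub).trans (Finset.card_image_le.trans (card_units6 t c))

end Pool.Agent.W29.GA
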